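import Mathlib

set_option autoImplicit false

namespace Pool.Agent.Helper370_SNP

open MvPolynomial

/-- The Schur polynomial of shape `μ` in the variables `x_0, ..., x_{k-1}`, as a sum over
semistandard Young tableaux with entries `< k`. -/
noncomputable def P (k : ℕ) (μ : YoungDiagram) : MvPolynomial ℕ ℤ :=
  ∑ᶠ T : {T : SemistandardYoungTableau μ // ∀ p ∈ μ.cells, T p.1 p.2 < k},
    ∏ p ∈ μ.cells, (MvPolynomial.X (T.1 p.1 p.2) : MvPolynomial ℕ ℤ)

instance finT (k : ℕ) (μ : YoungDiagram) :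
    Finite {T : SemistandardYoungTableau μ // ∀ p ∈ μ.cells, T p.1 p.2 < k} := by
  classical
  let f : {T : SemistandardYoungTableau μ // ∀ p ∈ μ.cells, T p.1 p.2 < k} → (μ.cells → Fin k) :=
    fun T p => ⟨T.1 p.1.1 p.1.2, T.2 p.1 p.2⟩
  apply Finite.of_injective f
  intro T T' h
  apply Subtype.ext
  apply SemistandardYoungTableau.ext
  intro i j
  by_cases hm : (i, j) ∈ μ
  · have := congrFun h ⟨(i, j), hm⟩
    simpa [f] using this
  · rw [T.1.zeros hm, T'.1.zeros hm]

/-- `μ / ν` is a horizontal strip. -/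
def HS (ν μ : YoungDiagram) : Prop := ν ≤ μ ∧ ∀ i j, (i + 1, j) ∈ μ → (i, j) ∈ ν

instance finHS (μ : YoungDiagram) : Finite {ν : YoungDiagram // HS ν μ} := by
  classical
  let f : {ν : YoungDiagram // HS ν μ} → μ.cells.powerset :=
    fun ν => ⟨ν.1.cells, by
      rw [Finset.mem_powerset]
      exact ν.2.1⟩
  apply Finite.of_injective f
  intro ν ν' h
  apply Subtype.ext
  have := congrArg Subtype.val h
  exact YoungDiagram.ext this

/-- the cells with entries `< k` -/
def low (k : ℕ) {μ : YoungDiagram} (T : SemistandardYoungTableau μ) : YoungDiagram where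
  cells := μ.cells.filter (fun p => T p.1 p.2 < k)
  isLowerSet := by
    intro p q hqp hp
    simp only [Finset.coe_filter, Set.mem_ofPred_eq, YoungDiagram.mem_cells] at hp ⊢
    obtain ⟨p1, p2⟩ := p
    obtain ⟨q1, q2⟩ := q
    obtain ⟨h1, h2⟩ := Prod.mk_le_mk.mp hqp
    refine ⟨μ.up_left_mem h1 h2 hp.1, ?_⟩
    have ha : T q1 q2 ≤ T q1 p2 := T.row_weak_of_le h2 (μ.up_left_mem h1 le_rfl hp.1)
    have hb : T q1 p2 ≤ T p1 p2 := T.col_weak h1 hp.1
    exact lt_of_le_of_lt (ha.trans hb) hp.2

theorem mem_low {k : ℕ} {μ : YoungDiagram} (T : SemistandardYoungTableau μ) (i j : ℕ) :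
    (i, j) ∈ low k T ↔ (i, j) ∈ μ ∧ T i j < k := by
  show (i, j) ∈ μ.cells.filter (fun p => T p.1 p.2 < k) ↔ _
  rw [Finset.mem_filter]
  rfl

theorem low_HS {k : ℕ} {μ : YoungDiagram} (T : SemistandardYoungTableau μ)
    (hT : ∀ p ∈ μ.cells, T p.1 p.2 < k + 1) : HS (low k T) μ := by
  constructor
  · intro p hp
    obtain ⟨i, j⟩ := p
    exact ((mem_low T i j).1 hp).1
  · intro i j h
    rw [mem_low]
    refine ⟨μ.up_left_mem (Nat.le_succ i) le_rfl h, ?_⟩
    have h1 : T i j < T (i + 1) j := T.col_strict (Nat.lt_succ_self i) h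
    have h2 := hT (i + 1, j) h
    simp only at h2
    omega

/-- extend a tableau of shape `ν` by entries `k` on `μ / ν` -/
def ext (k : ℕ) {ν μ : YoungDiagram} (h : HS ν μ) (T : SemistandardYoungTableau ν)
    (hT : ∀ p ∈ ν.cells, T p.1 p.2 < k) : SemistandardYoungTableau μ where
  entry i j := if (i, j) ∈ ν then T i j else if (i, j) ∈ μ then k else 0
  row_weak' := by
    intro i j1 j2 hj hm
    by_cases h2 : (i, j2) ∈ ν
    · have h1 : (i, j1) ∈ ν := ν.up_left_mem le_rfl hj.le h2
      rw [if_pos h1, if_pos h2]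
      exact T.row_weak hj h2
    · have hm1 : (i, j1) ∈ μ := μ.up_left_mem le_rfl hj.le hm
      rw [if_neg h2, if_pos hm]
      by_cases h1 : (i, j1) ∈ ν
      · rw [if_pos h1]
        exact (hT (i, j1) h1).le
      · rw [if_neg h1, if_pos hm1]
  col_strict' := by
    intro i1 i2 j hi hm
    by_cases h2 : (i2, j) ∈ ν
    · have h1 : (i1, j) ∈ ν := ν.up_left_mem hi.le le_rfl h2
      rw [if_pos h1, if_pos h2]
      exact T.col_strict hi h2
    · have h1 : (i1, j) ∈ ν := h.2 i1 j (μ.up_left_mem hi le_rfl hm)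
      rw [if_neg h2, if_pos hm, if_pos h1]
      exact hT (i1, j) h1
  zeros' := by
    intro i j hm
    have h1 : (i, j) ∉ ν := fun hh => hm (h.1 hh)
    rw [if_neg h1, if_neg hm]

theorem ext_apply (k : ℕ) {ν μ : YoungDiagram} (h : HS ν μ) (T : SemistandardYoungTableau ν)
    (hT : ∀ p ∈ ν.cells, T p.1 p.2 < k) (i j : ℕ) :
    ext k h T hT i j = if (i, j) ∈ ν then T i j else if (i, j) ∈ μ then k else 0 := rfl

/-- restrict a tableau -/
def res {ν μ : YoungDiagram} (h : ν ≤ μ) (T : SemistandardYoungTableau μ) :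
    SemistandardYoungTableau ν where
  entry i j := if (i, j) ∈ ν then T i j else 0
  row_weak' := by
    intro i j1 j2 hj hm
    have h1 : (i, j1) ∈ ν := ν.up_left_mem le_rfl hj.le hm
    rw [if_pos h1, if_pos hm]
    exact T.row_weak hj (h hm)
  col_strict' := by
    intro i1 i2 j hi hm
    have h1 : (i1, j) ∈ ν := ν.up_left_mem hi.le le_rfl hm
    rw [if_pos h1, if_pos hm]
    exact T.col_strict hi (h hm)
  zeros' := by
    intro i j hm
    rw [if_neg hm]

theorem res_apply {ν μ : YoungDiagram} (h : ν ≤ μ) (T : SemistandardYoungTableau μ) (i j : ℕ) :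
    res h T i j = if (i, j) ∈ ν then T i j else 0 := rfl

/-- The branching rule. -/
theorem P_succ (k : ℕ) (μ : YoungDiagram) :
    P (k + 1) μ = ∑ᶠ ν : {ν : YoungDiagram // HS ν μ},
      P k ν.1 * (MvPolynomial.X k : MvPolynomial ℕ ℤ) ^ (μ.card - ν.1.card) := by
  classical
  letI : Fintype {ν : YoungDiagram // HS ν μ} := Fintype.ofFinite _
  letI : Fintype {T : SemistandardYoungTableau μ // ∀ p ∈ μ.cells, T p.1 p.2 < k + 1} :=
    Fintype.ofFinite _
  unfold P
  rw [finsum_eq_sum_of_fintype, finsum_eq_sum_of_fintype]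
  rw [← Finset.sum_fiberwise (s := Finset.univ)
    (g := fun T : {T : SemistandardYoungTableau μ // ∀ p ∈ μ.cells, T p.1 p.2 < k + 1} =>
      (⟨low k T.1, low_HS T.1 T.2⟩ : {ν : YoungDiagram // HS ν μ}))]
  apply Finset.sum_congr rfl
  rintro ⟨ν, hν⟩ -
  letI : Fintype {T : SemistandardYoungTableau ν // ∀ p ∈ ν.cells, T p.1 p.2 < k} :=
    Fintype.ofFinite _
  rw [finsum_eq_sum_of_fintype, Finset.sum_mul]
  refine Finset.sum_bij'
    (i := fun T hT => ⟨res hν.1 T.1, ?_⟩)
    (j := fun T hT => ⟨ext k hν T.1 T.2, ?_⟩) ?_ ?_ ?_ ?_ ?_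
  · intro p hp
    rw [Finset.mem_filter] at hT
    have h1 : low k T.1 = ν := congrArg Subtype.val hT.2
    rw [res_apply, if_pos (show (p.1, p.2) ∈ ν from hp)]
    have : (p.1, p.2) ∈ low k T.1 := by rw [h1]; exact hp
    exact ((mem_low T.1 _ _).1 this).2
  · intro p hp
    rw [ext_apply]
    split_ifs with h1 h2
    · exact (T.2 (p.1, p.2) h1).trans (Nat.lt_succ_self k)
    · exact Nat.lt_succ_self k
    · exact Nat.succ_pos k
  · intro T hT
    exact Finset.mem_univ _
  · intro T hT
    rw [Finset.mem_filter]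
    refine ⟨Finset.mem_univ _, ?_⟩
    apply Subtype.ext
    apply YoungDiagram.ext
    ext ⟨i, j⟩
    change (i, j) ∈ low k (ext k hν T.1 T.2) ↔ (i, j) ∈ ν
    rw [mem_low, ext_apply]
    constructor
    · rintro ⟨h1, h2⟩
      by_contra h3
      rw [if_neg h3, if_pos h1] at h2
      exact lt_irrefl _ h2
    · intro h3
      rw [if_pos h3]
      exact ⟨hν.1 h3, T.2 (i, j) h3⟩
  · intro T hT
    rw [Finset.mem_filter] at hT
    have h1 : low k T.1 = ν := congrArg Subtype.val hT.2
    apply Subtype.ext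
    apply SemistandardYoungTableau.ext
    intro i j
    simp only
    rw [ext_apply, res_apply]
    by_cases h3 : (i, j) ∈ ν
    · rw [if_pos h3, if_pos h3]
    · rw [if_neg h3]
      by_cases h4 : (i, j) ∈ μ
      · rw [if_pos h4]
        have h5 : ¬ T.1 i j < k := by
          intro h6
          apply h3
          rw [← h1, mem_low]
          exact ⟨h4, h6⟩
        have h7 := T.2 (i, j) h4
        simp only at h7
        omega
      · rw [if_neg h4, T.1.zeros h4]
  · intro T hT
    apply Subtype.ext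
    apply SemistandardYoungTableau.ext
    intro i j
    simp only
    rw [res_apply, ext_apply]
    by_cases h3 : (i, j) ∈ ν
    · rw [if_pos h3, if_pos h3]
    · rw [if_neg h3, T.1.zeros h3]
  · intro T hT
    rw [Finset.mem_filter] at hT
    have h1 : low k T.1 = ν := congrArg Subtype.val hT.2
    simp only
    have hsub : ν.cells ⊆ μ.cells := hν.1
    rw [← Finset.prod_sdiff hsub, mul_comm]
    congr 1
    · apply Finset.prod_congr rfl
      intro p hp
      rw [res_apply, if_pos (show (p.1, p.2) ∈ ν from hp)]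
    · have : ∀ p ∈ μ.cells \ ν.cells,
          (MvPolynomial.X (T.1 p.1 p.2) : MvPolynomial ℕ ℤ) = MvPolynomial.X k := by
        intro p hp
        rw [Finset.mem_sdiff] at hp
        have h5 : ¬ T.1 p.1 p.2 < k := by
          intro h6
          apply hp.2
          rw [← h1]
          show (p.1, p.2) ∈ low k T.1
          rw [mem_low]
          exact ⟨hp.1, h6⟩
        have h7 := T.2 p hp.1
        have h8 : T.1 p.1 p.2 = k := by omega
        rw [h8]
      rw [Finset.prod_congr rfl this, Finset.prod_const, Finset.card_sdiff_of_subset hsub]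

theorem P_zero_bot : P 0 ⊥ = 1 := by
  classical
  unfold P
  letI : Unique {T : SemistandardYoungTableau (⊥ : YoungDiagram) //
      ∀ p ∈ (⊥ : YoungDiagram).cells, T p.1 p.2 < 0} :=
    { default := ⟨SemistandardYoungTableau.highestWeight ⊥, by
        intro p hp
        simp at hp⟩
      uniq := by
        intro T
        apply Subtype.ext
        apply SemistandardYoungTableau.ext
        intro i j
        rw [T.1.zeros (YoungDiagram.notMem_bot _), SemistandardYoungTableau.zeros _
          (YoungDiagram.notMem_bot _)] }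
  rw [finsum_unique]
  simp

theorem P_zero_of_mem {μ : YoungDiagram} {p : ℕ × ℕ} (hp : p ∈ μ) : P 0 μ = 0 := by
  unfold P
  haveI : IsEmpty {T : SemistandardYoungTableau μ // ∀ p ∈ μ.cells, T p.1 p.2 < 0} := by
    constructor
    intro T
    exact absurd (T.2 p hp) (Nat.not_lt_zero _)
  exact finsum_of_isEmpty _

end Pool.Agent.Helper370_SNP
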