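import Pool.Agent.Helper370_SNP.Data

set_option autoImplicit false

namespace Pool.Agent.Helper370_SNP

/-- vector of Schur coefficients of the blow-up with class sizes `a, b, c, d` -/
def C (a b c d : ℕ) : List ℤ := (((Ctab.getD a []).getD b []).getD c []).getD d []

/-- table entry -/
def M (n m : ℕ) : List ℕ := (Mtab.getD n []).getD m []

/-- the mask of a partition -/
def maskOf (l : List ℕ) : List (List ℕ) → ℕ
  | [] => 0
  | q :: Q => 2 * maskOf l Q + (if hs l q = true then 1 else 0)

/-- add `c` at the places of the mask -/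
def addb (c : ℤ) : ℕ → List ℤ → List ℤ
  | _, [] => []
  | r, x :: xs => (if r % 2 = 1 then x + c else x) :: addb c (r / 2) xs

/-- zero vector -/
def zv : ℕ → List ℤ
  | 0 => []
  | n + 1 => 0 :: zv n

/-- vector times mask matrix -/
def vm (len : ℕ) : List ℤ → List ℕ → List ℤ
  | c :: cs, r :: rs => addb c r (vm len cs rs)
  | _, _ => zv len

/-- add vectors (padding with zeros) -/
def addv : List ℤ → List ℤ → List ℤ
  | [], v => v
  | u, [] => u
  | a :: u, b :: v => (a + b) :: addv u v

/-- scale a vector -/
def smulv (c : ℤ) : List ℤ → List ℤ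
  | [] => []
  | a :: u => (c * a) :: smulv c u

/-- is the vector zero -/
def allz : List ℤ → Bool
  | [] => true
  | a :: u => decide (a = 0) && allz u

/-- stability of a class count vector -/
def st4 (i y x w : ℕ) : Bool :=
  (Nat.beq i 0 || Nat.beq y 0) && ((Nat.beq y 0 || Nat.beq x 0) && (Nat.beq x 0 || Nat.beq w 0))

/-- all count vectors in the box -/
def box (a b c d : ℕ) : List (ℕ × ℕ × ℕ × ℕ) :=
  (List.range (a + 1)).flatMap fun i => (List.range (b + 1)).flatMap fun y =>
    (List.range (c + 1)).flatMap fun x => (List.range (d + 1)).map fun w => (i, y, x, w)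

/-- multiplicity -/
def mult (a b c d : ℕ) (t : ℕ × ℕ × ℕ × ℕ) : ℕ :=
  a.choose t.1 * (b.choose t.2.1 * (c.choose t.2.2.1 * d.choose t.2.2.2))

/-- right hand side: sum over stable subsets of given size -/
def rhs (a b c d m : ℕ) : List (ℕ × ℕ × ℕ × ℕ) → List ℤ
  | [] => []
  | t :: ts => if st4 t.1 t.2.1 t.2.2.1 t.2.2.2 &&
        Nat.beq (t.1 + t.2.1 + t.2.2.1 + t.2.2.2 + m) (a + b + c + d) then
      addv (smulv (mult a b c d t : ℤ) (C (a - t.1) (b - t.2.1) (c - t.2.2.1) (d - t.2.2.2)))
        (rhs a b c d m ts)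
    else rhs a b c d m ts

/-- the check for one state -/
def chk (a b c d : ℕ) : Bool :=
  (List.range (a + b + c + d + 1)).all fun m =>
    allz (addv (vm (L m).length (C a b c d) (M (a + b + c + d) m))
      (smulv (-1) (rhs a b c d m (box a b c d))))

/-- the check of the mask table -/
def chkM (n m : ℕ) : Bool :=
  decide ((L n).map (fun l => maskOf l (L m)) = M n m)

theorem chkM_all : ∀ n < 14, ∀ m ≤ n, chkM n m = true := by decide +kernel

theorem len_all : ∀ a < 5, ∀ b < 3, ∀ c < 3, ∀ d < 6,
    (C a b c d).length = (L (a + b + c + d)).length := by decide +kernel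

end Pool.Agent.Helper370_SNP
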