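import Pool.Agent.Helper370_SNP.Check

set_option autoImplicit false

namespace Pool.Agent.Helper370_SNP

theorem chk_all : ∀ a < 5, ∀ b < 3, ∀ c < 3, ∀ d < 6, chk a b c d = true := by
  decide +kernel

end Pool.Agent.Helper370_SNP
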