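import Mathlib

set_option autoImplicit false

namespace Pool.Agent.Helper370_SNP

open MvPolynomial

/-- adjacency of classes: the path `0 - 1 - 2 - 3` -/
def adj (i j : Fin 4) : Prop := i.val + 1 = j.val ∨ j.val + 1 = i.val

instance (i j : Fin 4) : Decidable (adj i j) := by unfold adj; infer_instance

/-- proper colorings of the blow-up -/
def Proper {k : ℕ} {V : Type} (cl : V → Fin 4) (κ : V → Fin k) : Prop :=
  ∀ u v, adj (cl u) (cl v) → κ u ≠ κ v

/-- stable sets of the blow-up -/
def Stab {V : Type} (cl : V → Fin 4) (S : Finset V) : Prop :=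
  ∀ u ∈ S, ∀ v ∈ S, ¬ adj (cl u) (cl v)

open Classical in
/-- The chromatic symmetric polynomial in `k` variables of the blow-up. -/
noncomputable def XP (k : ℕ) (V : Type) [Fintype V] (cl : V → Fin 4) : MvPolynomial ℕ ℤ :=
  ∑ κ : V → Fin k, if Proper cl κ then ∏ v, (MvPolynomial.X ((κ v : ℕ)) : MvPolynomial ℕ ℤ) else 0

open Classical in
/-- glue a coloring of the complement with the last color on `S` -/
noncomputable def glue {k : ℕ} {V : Type} (S : Finset V) (κ : {v : V // v ∉ S} → Fin k) :
    V → Fin (k + 1) :=
  fun v => if h : v ∈ S then Fin.last k else (κ ⟨v, h⟩).castSucc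

open Classical in
theorem XP_succ (k : ℕ) (V : Type) [Fintype V] (cl : V → Fin 4) :
    XP (k + 1) V cl = ∑ S : Finset V, if Stab cl S then
      (MvPolynomial.X k : MvPolynomial ℕ ℤ) ^ S.card *
        XP k {v : V // v ∉ S} (fun v => cl v.1) else 0 := by
  unfold XP
  rw [← Finset.sum_fiberwise (s := Finset.univ)
    (g := fun κ : V → Fin (k + 1) => Finset.univ.filter (fun v => κ v = Fin.last k))]
  apply Finset.sum_congr rfl
  intro S _
  have step : ∑ κ ∈ Finset.univ.filter (fun κ : V → Fin (k + 1) =>
      Finset.univ.filter (fun v => κ v = Fin.last k) = S),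
      (if Proper cl κ then ∏ v, (MvPolynomial.X ((κ v : ℕ)) : MvPolynomial ℕ ℤ) else 0) =
      ∑ κ : {v : V // v ∉ S} → Fin k,
        (if Proper cl (glue S κ) then
          ∏ v, (MvPolynomial.X ((glue S κ v : ℕ)) : MvPolynomial ℕ ℤ) else 0) := by
    symm
    apply Finset.sum_bij (i := fun κ _ => glue S κ)
    · intro κ _
      rw [Finset.mem_filter]
      refine ⟨Finset.mem_univ _, ?_⟩
      ext v
      simp only [Finset.mem_filter, Finset.mem_univ, true_and, glue]
      by_cases h : v ∈ S
      · simp [h]
      · simp only [h, dif_neg, not_false_eq_true, iff_false]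
        exact (Fin.castSucc_lt_last _).ne
    · intro κ _ κ' _ h
      funext v
      have := congrFun h v.1
      simp only [glue, dif_neg v.2] at this
      exact Fin.castSucc_injective _ this
    · intro κ hκ
      rw [Finset.mem_filter] at hκ
      have hmem : ∀ v, v ∈ S ↔ κ v = Fin.last k := by
        intro v
        rw [← hκ.2]
        simp
      refine ⟨fun v => (κ v.1).castLT ?_, Finset.mem_univ _, ?_⟩
      · have h1 : κ v.1 ≠ Fin.last k := fun h => v.2 ((hmem _).2 h)
        have h2 := (κ v.1).is_le
        have h3 : (κ v.1).val ≠ k := fun h => h1 (Fin.ext h)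
        omega
      · funext v
        simp only [glue]
        by_cases h : v ∈ S
        · rw [dif_pos h, (hmem v).1 h]
        · rw [dif_neg h, Fin.castSucc_castLT]
    · intro κ _
      rfl
  rw [step]
  by_cases hS : Stab cl S
  · rw [if_pos hS, Finset.mul_sum]
    refine Finset.sum_congr (by ext; simp) ?_
    intro κ _
    have hp : Proper cl (glue S κ) ↔ Proper (fun v : {v : V // v ∉ S} => cl v.1) κ := by
      constructor
      · intro h u v huv he
        apply h u.1 v.1 huv
        simp only [glue, dif_neg u.2, dif_neg v.2]
        rw [he]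
      · intro h u v huv
        simp only [glue]
        by_cases hu : u ∈ S
        · by_cases hv : v ∈ S
          · exact absurd huv (hS u hu v hv)
          · rw [dif_pos hu, dif_neg hv]
            exact (Fin.castSucc_lt_last _).ne'
        · by_cases hv : v ∈ S
          · rw [dif_neg hu, dif_pos hv]
            exact (Fin.castSucc_lt_last _).ne
          · rw [dif_neg hu, dif_neg hv]
            intro he
            exact h ⟨u, hu⟩ ⟨v, hv⟩ huv (Fin.castSucc_injective _ he)
    by_cases hq : Proper (fun v : {v : V // v ∉ S} => cl v.1) κ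
    · rw [if_pos (hp.2 hq), if_pos hq]
      rw [← Fintype.prod_subtype_mul_prod_subtype (fun v => v ∈ S)]
      congr 1
      · have : ∀ v : {v : V // v ∈ S},
            (MvPolynomial.X ((glue S κ v.1 : ℕ)) : MvPolynomial ℕ ℤ) = MvPolynomial.X k := by
          intro v
          simp only [glue, dif_pos v.2, Fin.val_last]
        rw [Finset.prod_congr rfl (fun v _ => this v), Finset.prod_const]
        congr 1
        rw [← Finset.card_attach (s := S)]
        congr 1
        ext v
        simp
      · apply Finset.prod_congr rfl
        intro v _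
        simp only [glue, dif_neg v.2, Fin.val_castSucc]
    · rw [if_neg (fun h => hq (hp.1 h)), if_neg hq, mul_zero]
  · rw [if_neg hS]
    apply Finset.sum_eq_zero
    intro κ _
    rw [if_neg]
    intro h
    apply hS
    intro u hu v hv huv
    apply h u v huv
    simp only [glue, dif_pos hu, dif_pos hv]

end Pool.Agent.Helper370_SNP
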