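import Pool.Agent.Helper370_SNP.Main

set_option autoImplicit false

namespace Pool.Agent.Helper370_SNP

open MvPolynomial

/-- the classes: sizes 4, 2, 2, 5 -/
def cl0 (v : Fin 13) : Fin 4 :=
  if v.val < 4 then 0 else if v.val < 6 then 1 else if v.val < 8 then 2 else 3

theorem adj_symm (i j : Fin 4) (h : adj i j) : adj j i := Or.symm h

theorem adj_irrefl (i : Fin 4) : ¬ adj i i := by
  revert i
  decide

/-- The blow-up of the path on four vertices with independent sets of sizes 4, 2, 2, 5. -/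
def G0 : SimpleGraph (Fin 13) where
  Adj u v := adj (cl0 u) (cl0 v)
  symm := ⟨fun u v h => adj_symm _ _ h⟩
  loopless := ⟨fun v h => adj_irrefl _ h⟩

theorem frozen_eq_XP (k : ℕ) :
    (∑ᶠ κ : {κ : Fin 13 → Fin k // ∀ u v, G0.Adj u v → κ u ≠ κ v},
      ∏ v, (MvPolynomial.X ((κ.1 v : ℕ)) : MvPolynomial ℕ ℤ)) = XP k (Fin 13) cl0 := by
  classical
  letI : Fintype {κ : Fin 13 → Fin k // ∀ u v, G0.Adj u v → κ u ≠ κ v} := Fintype.ofFinite _
  rw [finsum_eq_sum_of_fintype]
  unfold XP
  rw [← Finset.sum_filter]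
  symm
  exact Finset.sum_subtype (p := fun κ : Fin 13 → Fin k => ∀ u v, G0.Adj u v → κ u ≠ κ v)
    (F := inferInstance) _ (fun κ => by simp [Proper, G0])
    (fun κ => ∏ v, (MvPolynomial.X ((κ v : ℕ)) : MvPolynomial ℕ ℤ))

/-- nonnegative combination of Schur functions -/
noncomputable def csum : List ℕ → List (List ℕ) → (YoungDiagram →₀ ℕ)
  | n :: u, l :: v => Finsupp.single (dg l) n + csum u v
  | _, _ => 0

theorem csum_sum (k : ℕ) : ∀ (u : List ℕ) (Ls : List (List ℕ)),
    (csum u Ls).sum (fun μ a => a • P k μ) =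
      dot (u.map (fun n : ℕ => (n : ℤ))) (Ls.map (fun l => P k (dg l)))
  | [], Ls => by
    simp only [csum, List.map_nil, dot_nil_left, Finsupp.sum_zero_index]
  | n :: u, [] => by
    simp only [csum, List.map_nil, dot_nil_right, Finsupp.sum_zero_index]
  | n :: u, l :: Ls => by
    simp only [csum, List.map_cons, dot]
    rw [Finsupp.sum_add_index' (by simp) (by intros; rw [add_smul]), csum_sum k u Ls,
      Finsupp.sum_single_index (by simp)]
    congr 1

/-- the Schur coefficients -/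
def cN : List ℕ := (C 4 2 2 5).map Int.toNat

theorem cN_eq : cN.map (fun n : ℕ => (n : ℤ)) = C 4 2 2 5 := by decide +kernel

theorem counts : cn cl0 Finset.univ 0 = 4 ∧ cn cl0 Finset.univ 1 = 2 ∧
    cn cl0 Finset.univ 2 = 2 ∧ cn cl0 Finset.univ 3 = 5 := by
  unfold cn
  refine ⟨?_, ?_, ?_, ?_⟩
  · convert (by decide : (Finset.univ.filter (fun v => cl0 v = 0)).card = 4)
  · convert (by decide : (Finset.univ.filter (fun v => cl0 v = 1)).card = 2)
  · convert (by decide : (Finset.univ.filter (fun v => cl0 v = 2)).card = 2)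
  · convert (by decide : (Finset.univ.filter (fun v => cl0 v = 3)).card = 5)

/-- `X_G` is Schur positive, in every number of variables. -/
theorem schur_positive (k : ℕ) :
    XP k (Fin 13) cl0 = (csum cN (L 13)).sum (fun μ a => a • P k μ) := by
  rw [csum_sum, cN_eq]
  exact main k (Fin 13) cl0 4 2 2 5 (by norm_num) (by norm_num) (by norm_num) (by norm_num)
    counts.1 counts.2.1 counts.2.2.1 counts.2.2.2

/-! ## The support -/

/-- content of a coloring -/
noncomputable def ct {k : ℕ} (κ : Fin 13 → Fin k) : ℕ →₀ ℕ := ∑ v, Finsupp.single ((κ v : ℕ)) 1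

theorem prod_eq {k : ℕ} (κ : Fin 13 → Fin k) :
    (∏ v, (MvPolynomial.X ((κ v : ℕ)) : MvPolynomial ℕ ℤ)) = MvPolynomial.monomial (ct κ) 1 := by
  unfold ct
  rw [MvPolynomial.monomial_sum_one]
  rfl

theorem ct_apply {k : ℕ} (κ : Fin 13 → Fin k) (i : ℕ) :
    ct κ i = (Finset.univ.filter (fun v => (κ v : ℕ) = i)).card := by
  unfold ct
  rw [Finsupp.finsetSum_apply, Finset.card_filter]
  apply Finset.sum_congr rfl
  intro v _
  rw [Finsupp.single_apply]

theorem coeff_XP (k : ℕ) (α : ℕ →₀ ℕ) : MvPolynomial.coeff α (XP k (Fin 13) cl0) =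
    ∑ κ : Fin 13 → Fin k, (open Classical in if Proper cl0 κ ∧ ct κ = α then 1 else 0) := by
  classical
  unfold XP
  rw [MvPolynomial.coeff_sum]
  refine Finset.sum_congr (by ext; simp) ?_
  intro κ _
  by_cases h : Proper cl0 κ
  · rw [if_pos h, prod_eq, MvPolynomial.coeff_monomial]
    by_cases h2 : ct κ = α
    · rw [if_pos h2, if_pos ⟨h, h2⟩]
    · rw [if_neg h2, if_neg (fun hh => h2 hh.2)]
  · rw [if_neg h, if_neg (fun hh => h hh.1), MvPolynomial.coeff_zero]

theorem mem_support_iff (k : ℕ) (α : ℕ →₀ ℕ) : α ∈ (XP k (Fin 13) cl0).support ↔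
    ∃ κ : Fin 13 → Fin k, Proper cl0 κ ∧ ct κ = α := by
  classical
  rw [MvPolynomial.mem_support_iff, coeff_XP]
  constructor
  · intro h
    by_contra h2
    push Not at h2
    apply h
    apply Finset.sum_eq_zero
    intro κ _
    rw [if_neg]
    rintro ⟨h3, h4⟩
    exact h2 κ h3 h4
  · rintro ⟨κ, h1, h2⟩
    apply ne_of_gt
    apply Finset.sum_pos'
    · intro κ' _
      split_ifs <;> norm_num
    · refine ⟨κ, Finset.mem_univ _, ?_⟩
      rw [if_pos ⟨h1, h2⟩]
      norm_num

/-- first coloring, content (9,2,2) -/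
def k1 (v : Fin 13) : Fin 3 :=
  if v.val < 4 then 0 else if v.val < 6 then 1 else if v.val < 8 then 2 else 0

/-- second coloring, content (7,6,0) -/
def k2 (v : Fin 13) : Fin 3 :=
  if v.val < 4 then 1 else if v.val < 6 then 0 else if v.val < 8 then 1 else 0

theorem proper_k1 : Proper cl0 k1 := by
  unfold Proper
  decide

theorem proper_k2 : Proper cl0 k2 := by
  unfold Proper
  decide

/-- the exponent vector (8,4,1) -/
noncomputable def alpha : ℕ →₀ ℕ :=
  Finsupp.single 0 8 + Finsupp.single 1 4 + Finsupp.single 2 1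

theorem ct_ge {k : ℕ} (κ : Fin 13 → Fin k) (i : ℕ) (hi : k ≤ i) : ct κ i = 0 := by
  rw [ct_apply, Finset.card_eq_zero, Finset.filter_eq_empty_iff]
  intro v _
  have := (κ v).isLt
  omega

theorem midpoint (i : ℕ) : (2 : ℕ) * alpha i = ct k1 i + ct k2 i := by
  rcases Nat.lt_or_ge i 3 with h | h
  · interval_cases i
    · rw [ct_apply, ct_apply]
      have h1 : (Finset.univ.filter (fun v => ((k1 v : Fin 3) : ℕ) = 0)).card = 9 := by decide
      have h2 : (Finset.univ.filter (fun v => ((k2 v : Fin 3) : ℕ) = 0)).card = 7 := by decide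
      rw [h1, h2]
      simp [alpha]
    · rw [ct_apply, ct_apply]
      have h1 : (Finset.univ.filter (fun v => ((k1 v : Fin 3) : ℕ) = 1)).card = 2 := by decide
      have h2 : (Finset.univ.filter (fun v => ((k2 v : Fin 3) : ℕ) = 1)).card = 6 := by decide
      rw [h1, h2]
      simp [alpha]
    · rw [ct_apply, ct_apply]
      have h1 : (Finset.univ.filter (fun v => ((k1 v : Fin 3) : ℕ) = 2)).card = 2 := by decide
      have h2 : (Finset.univ.filter (fun v => ((k2 v : Fin 3) : ℕ) = 2)).card = 0 := by decide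
      rw [h1, h2]
      simp [alpha]
  · rw [ct_ge k1 i h, ct_ge k2 i h]
    have h0 : (0 : ℕ) ≠ i := by omega
    have h1 : (1 : ℕ) ≠ i := by omega
    have h2 : (2 : ℕ) ≠ i := by omega
    simp [alpha, Finsupp.single_apply, h0, h1, h2]

theorem card_class_13 : (Finset.univ.filter (fun v => cl0 v = 1 ∨ cl0 v = 3)).card = 7 := by
  decide

theorem card_class_02 : (Finset.univ.filter (fun v => cl0 v = 0 ∨ cl0 v = 2)).card = 6 := by
  decide

theorem not_mem_support : alpha ∉ (XP 3 (Fin 13) cl0).support := by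
  classical
  rw [mem_support_iff]
  rintro ⟨κ, hκ, hc⟩
  have c0 : (Finset.univ.filter (fun v => (κ v : ℕ) = 0)).card = 8 := by
    rw [← ct_apply, hc]
    simp [alpha]
  have c2 : (Finset.univ.filter (fun v => (κ v : ℕ) = 2)).card = 1 := by
    rw [← ct_apply, hc]
    simp [alpha]
  have hcl : ∀ v, cl0 v = 0 ∨ cl0 v = 1 ∨ cl0 v = 2 ∨ cl0 v = 3 := by decide
  have n1 : ∀ v, cl0 v = 1 → (κ v : ℕ) ≠ 0 := by
    intro v hv h0
    have hsub : Finset.univ.filter (fun v => (κ v : ℕ) = 0) ⊆
        Finset.univ.filter (fun v => cl0 v = 1 ∨ cl0 v = 3) := by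
      intro u hu
      rw [Finset.mem_filter] at hu ⊢
      refine ⟨hu.1, ?_⟩
      rcases hcl u with h | h | h | h
      · exfalso
        apply hκ u v
        · rw [h, hv]; decide
        · apply Fin.ext
          rw [hu.2, h0]
      · exact Or.inl h
      · exfalso
        apply hκ u v
        · rw [h, hv]; decide
        · apply Fin.ext
          rw [hu.2, h0]
      · exact Or.inr h
    have := Finset.card_le_card hsub
    rw [c0, card_class_13] at this
    omega
  have n2 : ∀ v, cl0 v = 2 → (κ v : ℕ) ≠ 0 := by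
    intro v hv h0
    have hsub : Finset.univ.filter (fun v => (κ v : ℕ) = 0) ⊆
        Finset.univ.filter (fun v => cl0 v = 0 ∨ cl0 v = 2) := by
      intro u hu
      rw [Finset.mem_filter] at hu ⊢
      refine ⟨hu.1, ?_⟩
      rcases hcl u with h | h | h | h
      · exact Or.inl h
      · exfalso
        apply hκ u v
        · rw [h, hv]; decide
        · apply Fin.ext
          rw [hu.2, h0]
      · exact Or.inr h
      · exfalso
        apply hκ u v
        · rw [h, hv]; decide
        · apply Fin.ext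
          rw [hu.2, h0]
    have := Finset.card_le_card hsub
    rw [c0, card_class_02] at this
    omega
  have two : ∀ u v : Fin 13, u ≠ v → (κ u : ℕ) = 2 → (κ v : ℕ) = 2 → False := by
    intro u v huv hu hv
    have hsub : ({u, v} : Finset (Fin 13)) ⊆ Finset.univ.filter (fun v => (κ v : ℕ) = 2) := by
      intro x hx
      rw [Finset.mem_insert, Finset.mem_singleton] at hx
      rw [Finset.mem_filter]
      rcases hx with rfl | rfl
      · exact ⟨Finset.mem_univ _, hu⟩
      · exact ⟨Finset.mem_univ _, hv⟩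
    have := Finset.card_le_card hsub
    rw [c2, Finset.card_pair huv] at this
    omega
  have a4 := n1 4 (by decide)
  have a5 := n1 5 (by decide)
  have a6 := n2 6 (by decide)
  have a7 := n2 7 (by decide)
  have b46 : (κ 4 : ℕ) ≠ (κ 6 : ℕ) := fun h => hκ 4 6 (by decide) (Fin.ext h)
  have b47 : (κ 4 : ℕ) ≠ (κ 7 : ℕ) := fun h => hκ 4 7 (by decide) (Fin.ext h)
  have b56 : (κ 5 : ℕ) ≠ (κ 6 : ℕ) := fun h => hκ 5 6 (by decide) (Fin.ext h)
  have l4 := (κ 4).isLt
  have l5 := (κ 5).isLt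
  have l6 := (κ 6).isLt
  have l7 := (κ 7).isLt
  have t1 := two 4 5 (by decide)
  have t2 := two 6 7 (by decide)
  by_cases h4 : (κ 4 : ℕ) = 2
  · apply t1 h4
    omega
  · apply t2 <;> omega

theorem mem_hull : (fun i : ℕ => (alpha i : ℝ)) ∈ convexHull ℝ
    ((fun β : ℕ →₀ ℕ => (fun i : ℕ => (β i : ℝ))) ''
      ((XP 3 (Fin 13) cl0).support : Set (ℕ →₀ ℕ))) := by
  have h1 : (fun i : ℕ => (ct k1 i : ℝ)) ∈ convexHull ℝ
    ((fun β : ℕ →₀ ℕ => (fun i : ℕ => (β i : ℝ))) ''
      ((XP 3 (Fin 13) cl0).support : Set (ℕ →₀ ℕ))) := by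
    apply subset_convexHull
    exact ⟨ct k1, (mem_support_iff 3 _).2 ⟨k1, proper_k1, rfl⟩, rfl⟩
  have h2 : (fun i : ℕ => (ct k2 i : ℝ)) ∈ convexHull ℝ
    ((fun β : ℕ →₀ ℕ => (fun i : ℕ => (β i : ℝ))) ''
      ((XP 3 (Fin 13) cl0).support : Set (ℕ →₀ ℕ))) := by
    apply subset_convexHull
    exact ⟨ct k2, (mem_support_iff 3 _).2 ⟨k2, proper_k2, rfl⟩, rfl⟩
  have h3 := (convex_convexHull ℝ _) h1 h2 (show (0 : ℝ) ≤ 1 / 2 by norm_num)
    (show (0 : ℝ) ≤ 1 / 2 by norm_num) (by norm_num)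
  convert h3 using 1
  funext i
  have h4 : (2 : ℝ) * (alpha i : ℝ) = (ct k1 i : ℝ) + (ct k2 i : ℝ) := by
    exact_mod_cast midpoint i
  simp only [Pi.add_apply, Pi.smul_apply, smul_eq_mul]
  linarith

end Pool.Agent.Helper370_SNP
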