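import Pool.Agent.Helper370_SNP.Color

set_option autoImplicit false

namespace Pool.Agent.Helper370_SNP

open MvPolynomial

open Classical in
/-- number of elements of `S` in class `i` -/
noncomputable def cn {V : Type} (cl : V → Fin 4) (S : Finset V) (i : Fin 4) : ℕ :=
  (S.filter (fun v => cl v = i)).card

/-- binomial sums -/
noncomputable def Bn (n : ℕ) (h : ℕ → MvPolynomial ℕ ℤ) : MvPolynomial ℕ ℤ :=
  ∑ i ∈ Finset.range (n + 1), (n.choose i) • h i

theorem Bn_add (n : ℕ) (h g : ℕ → MvPolynomial ℕ ℤ) :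
    Bn n (fun i => h i + g i) = Bn n h + Bn n g := by
  unfold Bn
  rw [← Finset.sum_add_distrib]
  apply Finset.sum_congr rfl
  intro i _
  rw [smul_add]

theorem Bn_succ (n : ℕ) (h : ℕ → MvPolynomial ℕ ℤ) :
    Bn (n + 1) h = Bn n h + Bn n (fun i => h (i + 1)) := by
  unfold Bn
  rw [Finset.sum_range_succ']
  have h1 : ∀ i ∈ Finset.range (n + 1), ((n + 1).choose (i + 1)) • h (i + 1) =
      (n.choose i) • h (i + 1) + (n.choose (i + 1)) • h (i + 1) := by
    intro i _
    rw [Nat.choose_succ_succ, add_smul]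
  rw [Finset.sum_congr rfl h1, Finset.sum_add_distrib]
  have h2 : ∑ i ∈ Finset.range (n + 1), (n.choose i) • h i =
      ∑ i ∈ Finset.range (n + 1), (n.choose (i + 1)) • h (i + 1) + h 0 := by
    have h3 : ∑ i ∈ Finset.range (n + 2), (n.choose i) • h i =
      ∑ i ∈ Finset.range (n + 1), (n.choose (i + 1)) • h (i + 1) + (n.choose 0) • h 0 :=
      Finset.sum_range_succ' _ _
    rw [Finset.sum_range_succ] at h3
    simpa using h3
  rw [h2]
  simp only [Nat.choose_zero_right, one_smul]
  abel

theorem Bn_zero (h : ℕ → MvPolynomial ℕ ℤ) : Bn 0 h = h 0 := by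
  unfold Bn
  simp

theorem cn_insert {V : Type} [DecidableEq V] (cl : V → Fin 4) (S : Finset V) (v : V) (hv : v ∉ S)
    (i : Fin 4) : cn cl (insert v S) i = cn cl S i + if cl v = i then 1 else 0 := by
  classical
  unfold cn
  rw [Finset.filter_insert]
  split_ifs with h
  · rw [Finset.card_insert_of_notMem]
    intro hh
    exact hv (Finset.mem_filter.1 hh).1
  · rfl

theorem group {V : Type} (cl : V → Fin 4) (s : Finset V)
    (g : ℕ → ℕ → ℕ → ℕ → MvPolynomial ℕ ℤ) :
    ∑ S ∈ s.powerset, g (cn cl S 0) (cn cl S 1) (cn cl S 2) (cn cl S 3) =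
      Bn (cn cl s 0) fun i => Bn (cn cl s 1) fun y => Bn (cn cl s 2) fun x =>
        Bn (cn cl s 3) fun w => g i y x w := by
  classical
  induction s using Finset.induction_on generalizing g with
  | empty =>
    have h0 : ∀ i, cn cl (∅ : Finset V) i = 0 := by
      intro i
      unfold cn
      simp
    simp only [Finset.powerset_empty, Finset.sum_singleton, h0, Bn_zero]
  | insert v s hv ih =>
    rw [Finset.sum_powerset_insert hv, ih g]
    have h1 : ∀ S ∈ s.powerset, v ∉ S := fun S hS hh => hv ((Finset.mem_powerset.1 hS) hh)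
    have hcl : cl v = 0 ∨ cl v = 1 ∨ cl v = 2 ∨ cl v = 3 := by
      generalize cl v = i
      fin_cases i <;> simp
    rcases hcl with h | h | h | h
    · have h2 : ∀ S ∈ s.powerset, g (cn cl (insert v S) 0) (cn cl (insert v S) 1)
          (cn cl (insert v S) 2) (cn cl (insert v S) 3) =
          (fun i y x w => g (i + 1) y x w) (cn cl S 0) (cn cl S 1) (cn cl S 2) (cn cl S 3) := by
        intro S hS
        simp [cn_insert cl S v (h1 S hS), h]
      rw [Finset.sum_congr rfl h2, ih (fun i y x w => g (i + 1) y x w)]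
      simp only [cn_insert cl s v hv, h, if_true]
      simp only [Fin.isValue, Fin.reduceEq, if_false, add_zero]
      rw [Bn_succ]
    · have h2 : ∀ S ∈ s.powerset, g (cn cl (insert v S) 0) (cn cl (insert v S) 1)
          (cn cl (insert v S) 2) (cn cl (insert v S) 3) =
          (fun i y x w => g i (y + 1) x w) (cn cl S 0) (cn cl S 1) (cn cl S 2) (cn cl S 3) := by
        intro S hS
        simp [cn_insert cl S v (h1 S hS), h]
      rw [Finset.sum_congr rfl h2, ih (fun i y x w => g i (y + 1) x w)]
      simp only [cn_insert cl s v hv, h, if_true]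
      simp only [Fin.isValue, Fin.reduceEq, if_false, add_zero]
      simp only [Bn_succ, Bn_add]
    · have h2 : ∀ S ∈ s.powerset, g (cn cl (insert v S) 0) (cn cl (insert v S) 1)
          (cn cl (insert v S) 2) (cn cl (insert v S) 3) =
          (fun i y x w => g i y (x + 1) w) (cn cl S 0) (cn cl S 1) (cn cl S 2) (cn cl S 3) := by
        intro S hS
        simp [cn_insert cl S v (h1 S hS), h]
      rw [Finset.sum_congr rfl h2, ih (fun i y x w => g i y (x + 1) w)]
      simp only [cn_insert cl s v hv, h, if_true]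
      simp only [Fin.isValue, Fin.reduceEq, if_false, add_zero]
      simp only [Bn_succ, Bn_add]
    · have h2 : ∀ S ∈ s.powerset, g (cn cl (insert v S) 0) (cn cl (insert v S) 1)
          (cn cl (insert v S) 2) (cn cl (insert v S) 3) =
          (fun i y x w => g i y x (w + 1)) (cn cl S 0) (cn cl S 1) (cn cl S 2) (cn cl S 3) := by
        intro S hS
        simp [cn_insert cl S v (h1 S hS), h]
      rw [Finset.sum_congr rfl h2, ih (fun i y x w => g i y x (w + 1))]
      simp only [cn_insert cl s v hv, h, if_true]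
      simp only [Fin.isValue, Fin.reduceEq, if_false, add_zero]
      simp only [Bn_succ, Bn_add]

theorem card_eq_cn {V : Type} (cl : V → Fin 4) (S : Finset V) :
    S.card = cn cl S 0 + cn cl S 1 + cn cl S 2 + cn cl S 3 := by
  classical
  have := Finset.card_eq_sum_card_fiberwise (s := S) (t := Finset.univ) (f := cl)
    (fun _ _ => by simp)
  rw [this, Fin.sum_univ_four]
  rfl

theorem cn_compl {V : Type} [Fintype V] (cl : V → Fin 4) (S : Finset V) (i : Fin 4)
    (inst : Fintype {v : V // v ∉ S}) :
    cn (fun v : {v : V // v ∉ S} => cl v.1) Finset.univ i = cn cl Finset.univ i - cn cl S i := by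
  classical
  have h1 : cn cl Finset.univ i =
      (Finset.univ.filter (fun v => cl v = i ∧ v ∉ S)).card + cn cl S i := by
    unfold cn
    rw [← Finset.card_union_of_disjoint]
    · congr 1
      ext v
      simp only [Finset.mem_filter, Finset.mem_univ, true_and, Finset.mem_union]
      tauto
    · rw [Finset.disjoint_left]
      intro v hv hw
      simp only [Finset.mem_filter, Finset.mem_univ, true_and] at hv hw
      exact hv.2 hw.1
  rw [h1, Nat.add_sub_cancel]
  unfold cn
  apply Finset.card_bij (i := fun v _ => v.1)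
  · intro v hv
    simp only [Finset.mem_filter, Finset.mem_univ, true_and] at hv ⊢
    exact ⟨hv, v.2⟩
  · intro v _ w _ h
    exact Subtype.ext h
  · intro v hv
    simp only [Finset.mem_filter, Finset.mem_univ, true_and] at hv
    exact ⟨⟨v, hv.2⟩, by simp [hv.1], rfl⟩

theorem cn_le {V : Type} [Fintype V] (cl : V → Fin 4) (S : Finset V) (i : Fin 4) :
    cn cl S i ≤ cn cl Finset.univ i := by
  classical
  unfold cn
  apply Finset.card_le_card
  apply Finset.filter_subset_filter
  exact Finset.subset_univ _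

theorem cn_pos {V : Type} (cl : V → Fin 4) (S : Finset V) (i : Fin 4) :
    cn cl S i ≠ 0 ↔ ∃ v ∈ S, cl v = i := by
  classical
  unfold cn
  rw [Finset.card_ne_zero]
  constructor
  · rintro ⟨v, hv⟩
    rw [Finset.mem_filter] at hv
    exact ⟨v, hv.1, hv.2⟩
  · rintro ⟨v, hv, h⟩
    exact ⟨v, Finset.mem_filter.2 ⟨hv, h⟩⟩

theorem stab_iff {V : Type} (cl : V → Fin 4) (S : Finset V) :
    Stab cl S ↔ (cn cl S 0 = 0 ∨ cn cl S 1 = 0) ∧ (cn cl S 1 = 0 ∨ cn cl S 2 = 0) ∧
      (cn cl S 2 = 0 ∨ cn cl S 3 = 0) := by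
  have key : ∀ i j : Fin 4, adj i j → Stab cl S → (cn cl S i = 0 ∨ cn cl S j = 0) := by
    intro i j hij hS
    by_contra h
    push Not at h
    obtain ⟨u, hu, hu'⟩ := (cn_pos cl S i).1 h.1
    obtain ⟨v, hv, hv'⟩ := (cn_pos cl S j).1 h.2
    apply hS u hu v hv
    rw [hu', hv']
    exact hij
  constructor
  · intro h
    exact ⟨key 0 1 (by decide) h, key 1 2 (by decide) h, key 2 3 (by decide) h⟩
  · rintro ⟨h1, h2, h3⟩ u hu v hv huv
    have hu' := (cn_pos cl S (cl u)).2 ⟨u, hu, rfl⟩
    have hv' := (cn_pos cl S (cl v)).2 ⟨v, hv, rfl⟩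
    revert hu' hv' huv
    generalize cl u = i
    generalize cl v = j
    intro huv hu' hv'
    fin_cases i <;> fin_cases j <;> simp [adj] at huv hu' hv' <;> tauto

end Pool.Agent.Helper370_SNP
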