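import Pool.Agent.Helper370_SNP.Branch

set_option autoImplicit false

namespace Pool.Agent.Helper370_SNP

open MvPolynomial

/-! ## Partitions as lists -/

/-- weakly decreasing list of positive integers -/
def Good (l : List ℕ) : Prop := l.Pairwise (· ≥ ·) ∧ ∀ x ∈ l, 0 < x

/-- the diagram with given row lengths -/
noncomputable def dg (l : List ℕ) : YoungDiagram :=
  open Classical in
  if h : l.SortedGE then YoungDiagram.ofRowLens l h else ⊥

theorem dg_eq {l : List ℕ} (h : l.SortedGE) : dg l = YoungDiagram.ofRowLens l h := by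
  unfold dg
  rw [dif_pos h]

theorem mem_dg {l : List ℕ} (h : Good l) (i j : ℕ) : (i, j) ∈ dg l ↔ j < l.getD i 0 := by
  rw [dg_eq (List.sortedGE_iff_pairwise.2 h.1), YoungDiagram.mem_ofRowLens]
  simp only
  constructor
  · rintro ⟨h1, h2⟩
    rw [List.getD_eq_getElem _ _ h1]
    exact h2
  · intro h2
    have h1 : i < l.length := by
      by_contra h3
      rw [List.getD_eq_default _ _ (by omega)] at h2
      omega
    refine ⟨h1, ?_⟩
    rw [List.getD_eq_getElem _ _ h1] at h2
    exact h2

theorem cellsOfRowLens_card (l : List ℕ) : (YoungDiagram.cellsOfRowLens l).card = l.sum := by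
  induction l with
  | nil => rfl
  | cons a l ih =>
    rw [YoungDiagram.cellsOfRowLens, Finset.card_union_of_disjoint, Finset.card_map, ih]
    · simp
    · rw [Finset.disjoint_left]
      intro p hp hq
      simp only [Finset.mem_product, Finset.mem_singleton, Finset.mem_map] at hp hq
      obtain ⟨q, -, hq⟩ := hq
      have := congrArg Prod.fst hq
      simp at this
      omega

theorem card_dg {l : List ℕ} (h : Good l) : (dg l).card = l.sum := by
  rw [dg_eq (List.sortedGE_iff_pairwise.2 h.1)]
  exact cellsOfRowLens_card l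

theorem dg_inj {l m : List ℕ} (hl : Good l) (hm : Good m) (h : dg l = dg m) : l = m := by
  have h1 := List.sortedGE_iff_pairwise.2 hl.1
  have h2 := List.sortedGE_iff_pairwise.2 hm.1
  rw [dg_eq h1, dg_eq h2] at h
  have h3 := congrArg YoungDiagram.rowLens h
  rwa [YoungDiagram.rowLens_ofRowLens_eq_self hl.2,
    YoungDiagram.rowLens_ofRowLens_eq_self hm.2] at h3

theorem dg_surj (ν : YoungDiagram) : ∃ l, Good l ∧ dg l = ν := by
  refine ⟨ν.rowLens, ⟨List.sortedGE_iff_pairwise.1 ν.rowLens_sorted, ν.pos_of_mem_rowLens⟩, ?_⟩
  rw [dg_eq ν.rowLens_sorted]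
  exact YoungDiagram.ofRowLens_to_rowLens_eq_self

/-- horizontal strip test on lists -/
def hs : List ℕ → List ℕ → Bool
  | [], [] => true
  | [], (_ :: _) => false
  | (_ :: l), [] => l.isEmpty
  | (a :: l), (b :: m) => Nat.ble b a && (Nat.ble (l.headD 0) b && hs l m)

theorem hs_iff : ∀ (l m : List ℕ), (∀ x ∈ l, 0 < x) → (∀ x ∈ m, 0 < x) →
    (hs l m = true ↔ ∀ i, m.getD i 0 ≤ l.getD i 0 ∧ l.getD (i + 1) 0 ≤ m.getD i 0)
  | [], [], _, _ => by simp [hs]
  | [], (b :: m), _, hm => by
    have hb : 0 < b := hm b (by simp)
    simp only [hs]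
    constructor
    · intro h
      exact absurd h (by simp)
    · intro h
      have := (h 0).1
      simp at this
      omega
  | (a :: l), [], hl, _ => by
    simp only [hs]
    constructor
    · intro h
      have : l = [] := by simpa using h
      subst this
      intro i
      cases i <;> simp
    · intro h
      have h0 := (h 0).2
      cases l with
      | nil => rfl
      | cons c l =>
        have hc : 0 < c := hl c (by simp)
        simp at h0
        omega
  | (a :: l), (b :: m), hl, hm => by
    have ih := hs_iff l m (fun x hx => hl x (by simp [hx])) (fun x hx => hm x (by simp [hx]))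
    simp only [hs, Bool.and_eq_true, Nat.ble_eq]
    rw [ih]
    have h0 : l.headD 0 = l.getD 0 0 := by cases l <;> simp
    constructor
    · rintro ⟨h1, h2, h3⟩ i
      cases i with
      | zero =>
        simp only [List.getD_cons_zero, List.getD_cons_succ]
        rw [← h0]
        exact ⟨h1, h2⟩
      | succ i =>
        simp only [List.getD_cons_succ]
        exact h3 i
    · intro h
      refine ⟨?_, ?_, ?_⟩
      · have := (h 0).1
        simpa using this
      · have := (h 0).2
        simp only [List.getD_cons_zero, List.getD_cons_succ] at this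
        rwa [h0]
      · intro i
        have := h (i + 1)
        simpa only [List.getD_cons_succ] using this

theorem HS_iff {l m : List ℕ} (hl : Good l) (hm : Good m) :
    HS (dg m) (dg l) ↔ hs l m = true := by
  rw [hs_iff l m hl.2 hm.2]
  constructor
  · rintro ⟨h1, h2⟩ i
    constructor
    · by_contra h3
      have h4 : (i, l.getD i 0) ∈ dg m := (mem_dg hm _ _).2 (by omega)
      have h5 := (mem_dg hl _ _).1 (h1 h4)
      omega
    · by_contra h3
      have h4 : (i + 1, m.getD i 0) ∈ dg l := (mem_dg hl _ _).2 (by omega)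
      have h5 := (mem_dg hm _ _).1 (h2 _ _ h4)
      omega
  · intro h
    constructor
    · rintro ⟨i, j⟩ hp
      have h4 := (mem_dg hm _ _).1 hp
      exact (mem_dg hl _ _).2 (lt_of_lt_of_le h4 (h i).1)
    · intro i j hp
      have h4 := (mem_dg hl _ _).1 hp
      exact (mem_dg hm _ _).2 (lt_of_lt_of_le h4 (h i).2)

/-! ## Enumeration of partitions -/

/-- partitions of `n` with parts at most `m` (first argument: fuel) -/
def gen : ℕ → ℕ → ℕ → List (List ℕ)
  | 0, n, _ => if n = 0 then [[]] else []
  | f + 1, n, m => if n = 0 then [[]] else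
      (List.range (min n m)).reverse.flatMap
        (fun i => (gen f (n - (i + 1)) (i + 1)).map (List.cons (i + 1)))

theorem mem_gen : ∀ (f n m : ℕ) (l : List ℕ), n ≤ f →
    (l ∈ gen f n m ↔ l.sum = n ∧ (∀ x ∈ l, 0 < x ∧ x ≤ m) ∧ l.Pairwise (· ≥ ·))
  | 0, n, m, l, hn => by
    have : n = 0 := by omega
    subst this
    simp only [gen, if_true, List.mem_singleton]
    constructor
    · rintro rfl
      simp
    · rintro ⟨h1, h2, -⟩
      cases l with
      | nil => rfl
      | cons a l =>
        have := (h2 a (by simp)).1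
        simp at h1
        omega
  | f + 1, n, m, l, hn => by
    by_cases h0 : n = 0
    · subst h0
      simp only [gen, if_true, List.mem_singleton]
      constructor
      · rintro rfl
        simp
      · rintro ⟨h1, h2, -⟩
        cases l with
        | nil => rfl
        | cons a l =>
          have := (h2 a (by simp)).1
          simp at h1
          omega
    · simp only [gen, if_neg h0, List.mem_flatMap, List.mem_reverse, List.mem_range, List.mem_map]
      constructor
      · rintro ⟨i, hi, q, hq, rfl⟩
        rw [mem_gen f _ _ q (by omega)] at hq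
        obtain ⟨h1, h2, h3⟩ := hq
        refine ⟨?_, ?_, ?_⟩
        · rw [List.sum_cons, h1]
          omega
        · intro x hx
          rw [List.mem_cons] at hx
          rcases hx with rfl | hx
          · omega
          · have := h2 x hx
            omega
        · rw [List.pairwise_cons]
          exact ⟨fun x hx => (h2 x hx).2, h3⟩
      · rintro ⟨h1, h2, h3⟩
        cases l with
        | nil => simp at h1; omega
        | cons a l =>
          have ha := h2 a (by simp)
          rw [List.sum_cons] at h1
          rw [List.pairwise_cons] at h3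
          refine ⟨a - 1, by omega, l, ?_, ?_⟩
          · rw [mem_gen f _ _ l (by omega)]
            refine ⟨by omega, ?_, h3.2⟩
            intro x hx
            have h4 := (h2 x (by simp [hx])).1
            have h5 := h3.1 x hx
            omega
          · congr 1
            omega

theorem nodup_gen : ∀ (f n m : ℕ), (gen f n m).Nodup
  | 0, n, m => by
    simp only [gen]
    split_ifs <;> simp
  | f + 1, n, m => by
    simp only [gen]
    split_ifs
    · simp
    · rw [List.nodup_flatMap]
      constructor
      · intro i _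
        exact (nodup_gen f _ _).map (fun _ _ h => (List.cons.inj h).2)
      · have hn : (List.range (min n m)).reverse.Nodup := List.nodup_reverse.2 List.nodup_range
        refine List.Pairwise.imp ?_ hn
        intro a b hab
        intro x hx hy
        simp only [List.mem_map] at hx hy
        obtain ⟨p, -, rfl⟩ := hx
        obtain ⟨q, -, hq⟩ := hy
        have := (List.cons.inj hq).1
        omega

/-- partitions of `n` -/
def L (n : ℕ) : List (List ℕ) := gen n n n

theorem mem_L {n : ℕ} {l : List ℕ} : l ∈ L n ↔ Good l ∧ l.sum = n := by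
  unfold L
  rw [mem_gen n n n l le_rfl]
  constructor
  · rintro ⟨h1, h2, h3⟩
    exact ⟨⟨h3, fun x hx => (h2 x hx).1⟩, h1⟩
  · rintro ⟨⟨h1, h2⟩, h3⟩
    refine ⟨h3, ?_, h1⟩
    intro x hx
    refine ⟨h2 x hx, ?_⟩
    rw [← h3]
    exact List.single_le_sum (by simp) x hx

theorem nodup_L (n : ℕ) : (L n).Nodup := nodup_gen _ _ _

/-! ## The branching rule on lists -/

theorem P_list (k n : ℕ) (l : List ℕ) (hl : l ∈ L n) :
    P (k + 1) (dg l) = ∑ m ∈ Finset.range (n + 1),
      (MvPolynomial.X k : MvPolynomial ℕ ℤ) ^ (n - m) *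
        ((L m).map (fun q => if hs l q then P k (dg q) else 0)).sum := by
  classical
  obtain ⟨hg, hn⟩ := mem_L.1 hl
  let D : ℕ → Finset YoungDiagram := fun m => ((L m).map dg).toFinset
  have memD : ∀ m ν, ν ∈ D m ↔ ν.card = m := by
    intro m ν
    simp only [D, List.mem_toFinset, List.mem_map]
    constructor
    · rintro ⟨q, hq, rfl⟩
      obtain ⟨h1, h2⟩ := mem_L.1 hq
      rw [card_dg h1, h2]
    · intro h
      obtain ⟨q, hq, rfl⟩ := dg_surj ν
      refine ⟨q, mem_L.2 ⟨hq, ?_⟩, rfl⟩
      rw [← card_dg hq, h]
  have sumD : ∀ m (F : YoungDiagram → MvPolynomial ℕ ℤ),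
      ∑ ν ∈ D m, F ν = ((L m).map (fun q => F (dg q))).sum := by
    intro m F
    have hnd : ((L m).map dg).Nodup := by
      apply List.Nodup.map_on _ (nodup_L m)
      intro a ha b hb hab
      exact dg_inj (mem_L.1 ha).1 (mem_L.1 hb).1 hab
    show ∑ ν ∈ ((L m).map dg).toFinset, F ν = _
    rw [List.sum_toFinset _ hnd, List.map_map]
    rfl
  letI : Fintype {ν : YoungDiagram // HS ν (dg l)} := Fintype.ofFinite _
  rw [P_succ, finsum_eq_sum_of_fintype]
  have hall : ∀ ν : YoungDiagram,
      ν ∈ ((Finset.range (n + 1)).biUnion D).filter (fun ν => HS ν (dg l)) ↔ HS ν (dg l) := by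
    intro ν
    rw [Finset.mem_filter]
    constructor
    · exact fun h => h.2
    · intro h
      refine ⟨?_, h⟩
      rw [Finset.mem_biUnion]
      refine ⟨ν.card, ?_, (memD _ _).2 rfl⟩
      rw [Finset.mem_range]
      have h1 : ν.card ≤ (dg l).card := Finset.card_le_card h.1
      rw [card_dg hg, hn] at h1
      omega
  have key := Finset.sum_subtype (p := fun ν => HS ν (dg l)) (F := inferInstance) _ hall
    (fun ν => P k ν * (MvPolynomial.X k : MvPolynomial ℕ ℤ) ^ ((dg l).card - ν.card))
  rw [← key, Finset.sum_filter, Finset.sum_biUnion]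
  · apply Finset.sum_congr rfl
    intro m _
    rw [sumD, ← List.sum_map_mul_left]
    congr 1
    apply List.map_congr_left
    intro q hq
    obtain ⟨h1, h2⟩ := mem_L.1 hq
    rw [card_dg hg, card_dg h1, hn, h2]
    by_cases h : hs l q = true
    · rw [if_pos ((HS_iff hg h1).2 h), if_pos h, mul_comm]
    · rw [if_neg (fun hh => h ((HS_iff hg h1).1 hh)), if_neg h, mul_zero]
  · intro a _ b _ hab
    rw [Function.onFun, Finset.disjoint_left]
    intro ν h1 h2
    rw [memD] at h1 h2
    omega

theorem P_zero_list (n : ℕ) (l : List ℕ) (hl : l ∈ L n) :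
    P 0 (dg l) = if n = 0 then 1 else 0 := by
  obtain ⟨hg, hn⟩ := mem_L.1 hl
  cases l with
  | nil =>
    have h0 : n = 0 := by simpa using hn.symm
    rw [if_pos h0]
    have : dg [] = ⊥ := by
      apply YoungDiagram.ext
      ext ⟨i, j⟩
      change (i, j) ∈ dg [] ↔ (i, j) ∈ (⊥ : YoungDiagram)
      rw [mem_dg hg]
      simp
    rw [this]
    exact P_zero_bot
  | cons a l =>
    have ha : 0 < a := hg.2 a (by simp)
    have h0 : n ≠ 0 := by
      rw [List.sum_cons] at hn
      omega
    rw [if_neg h0]
    exact P_zero_of_mem (p := (0, 0)) ((mem_dg hg _ _).2 (by simpa using ha))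

end Pool.Agent.Helper370_SNP
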