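import Pool.Agent.Helper370_SNP.Check2
import Pool.Agent.Helper370_SNP.Group

set_option autoImplicit false

namespace Pool.Agent.Helper370_SNP

open MvPolynomial

/-- pairing of a coefficient vector with a list of polynomials -/
noncomputable def dot : List ℤ → List (MvPolynomial ℕ ℤ) → MvPolynomial ℕ ℤ
  | a :: u, F :: v => a • F + dot u v
  | _, _ => 0

/-- Schur polynomials of all partitions of `n` -/
noncomputable def pv (k n : ℕ) : List (MvPolynomial ℕ ℤ) := (L n).map (fun l => P k (dg l))

theorem dot_nil_left (w : List (MvPolynomial ℕ ℤ)) : dot [] w = 0 := by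
  cases w <;> rfl

theorem dot_nil_right (u : List ℤ) : dot u [] = 0 := by
  cases u <;> rfl

theorem dot_addv : ∀ (u v : List ℤ) (w : List (MvPolynomial ℕ ℤ)),
    dot (addv u v) w = dot u w + dot v w
  | [], v, w => by rw [addv, dot_nil_left, zero_add]
  | a :: u, [], w => by
    rw [addv, dot_nil_left, add_zero]
    simp
  | a :: u, b :: v, [] => by
    rw [dot_nil_right, dot_nil_right, dot_nil_right, add_zero]
  | a :: u, b :: v, F :: w => by
    simp only [addv, dot]
    rw [dot_addv u v w, add_smul]
    abel

theorem dot_smulv (c : ℤ) : ∀ (u : List ℤ) (w : List (MvPolynomial ℕ ℤ)),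
    dot (smulv c u) w = c • dot u w
  | [], w => by rw [smulv, dot_nil_left, smul_zero]
  | a :: u, [] => by rw [dot_nil_right, dot_nil_right, smul_zero]
  | a :: u, F :: w => by
    simp only [smulv, dot]
    rw [dot_smulv c u w, smul_add, mul_smul]

theorem dot_allz : ∀ (u : List ℤ) (w : List (MvPolynomial ℕ ℤ)), allz u = true → dot u w = 0
  | [], w, _ => dot_nil_left w
  | a :: u, [], _ => dot_nil_right _
  | a :: u, F :: w, h => by
    simp only [allz, Bool.and_eq_true, decide_eq_true_eq] at h
    simp only [dot]
    rw [h.1, zero_smul, zero_add, dot_allz u w h.2]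

theorem dot_zv : ∀ (n : ℕ) (w : List (MvPolynomial ℕ ℤ)), dot (zv n) w = 0
  | 0, w => dot_nil_left w
  | n + 1, [] => dot_nil_right _
  | n + 1, F :: w => by
    simp only [zv, dot]
    rw [zero_smul, zero_add, dot_zv n w]

theorem length_addb (c : ℤ) : ∀ (r : ℕ) (u : List ℤ), (addb c r u).length = u.length
  | _, [] => rfl
  | r, x :: u => by
    simp only [addb, List.length_cons]
    rw [length_addb c _ u]

theorem length_zv : ∀ n : ℕ, (zv n).length = n
  | 0 => rfl
  | n + 1 => by
    simp only [zv, List.length_cons]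
    rw [length_zv n]

theorem length_vm (len : ℕ) : ∀ (c : List ℤ) (r : List ℕ), (vm len c r).length = len
  | [], _ => by simp only [vm]; exact length_zv len
  | _ :: _, [] => by simp only [vm]; exact length_zv len
  | c :: cs, r :: rs => by
    simp only [vm]
    rw [length_addb, length_vm len cs rs]

theorem dot_addb (c : ℤ) (l : List ℕ) (F : List ℕ → MvPolynomial ℕ ℤ) :
    ∀ (Q : List (List ℕ)) (acc : List ℤ), acc.length = Q.length →
    dot (addb c (maskOf l Q) acc) (Q.map F) =
      c • (Q.map (fun q => if hs l q = true then F q else 0)).sum + dot acc (Q.map F)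
  | [], acc, h => by
    have : acc = [] := List.eq_nil_of_length_eq_zero h
    subst this
    simp [addb, dot]
  | q :: Q, [], h => by simp at h
  | q :: Q, x :: acc, h => by
    have h' : acc.length = Q.length := by simpa using h
    have ih := dot_addb c l F Q acc h'
    simp only [addb, List.map_cons, dot, List.sum_cons]
    by_cases hq : hs l q = true
    · have h1 : maskOf l (q :: Q) % 2 = 1 := by
        simp only [maskOf, if_pos hq]; omega
      have h2 : maskOf l (q :: Q) / 2 = maskOf l Q := by
        simp only [maskOf, if_pos hq]; omega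
      rw [if_pos h1, h2, if_pos hq, ih, add_smul, smul_add]
      abel
    · have h1 : ¬ maskOf l (q :: Q) % 2 = 1 := by
        simp only [maskOf, if_neg hq]; omega
      have h2 : maskOf l (q :: Q) / 2 = maskOf l Q := by
        simp only [maskOf, if_neg hq]; omega
      rw [if_neg h1, h2, if_neg hq, ih, zero_add]
      abel

theorem dot_vm (Q : List (List ℕ)) (F : List ℕ → MvPolynomial ℕ ℤ) :
    ∀ (cs : List ℤ) (Ls : List (List ℕ)),
    dot (vm Q.length cs (Ls.map (fun l => maskOf l Q))) (Q.map F) =
      dot cs (Ls.map (fun l => (Q.map (fun q => if hs l q = true then F q else 0)).sum))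
  | [], Ls => by
    simp only [vm]
    rw [dot_zv, dot_nil_left]
  | c :: cs, [] => by
    simp only [vm, List.map_nil]
    rw [dot_zv, dot_nil_right]
  | c :: cs, l :: Ls => by
    simp only [vm, List.map_cons, dot]
    rw [dot_addb c l F Q _ (length_vm _ _ _), dot_vm Q F cs Ls]

theorem dot_sum_right (s : Finset ℕ) (x : ℕ → MvPolynomial ℕ ℤ)
    (G : ℕ → List ℕ → MvPolynomial ℕ ℤ) : ∀ (cs : List ℤ) (Ls : List (List ℕ)),
    dot cs (Ls.map (fun l => ∑ m ∈ s, x m * G m l)) = ∑ m ∈ s, x m * dot cs (Ls.map (G m))
  | [], Ls => by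
    simp only [dot_nil_left, mul_zero, Finset.sum_const_zero]
  | c :: cs, [] => by
    simp only [List.map_nil, dot_nil_right, mul_zero, Finset.sum_const_zero]
  | c :: cs, l :: Ls => by
    simp only [List.map_cons, dot]
    rw [dot_sum_right s x G cs Ls, Finset.smul_sum, ← Finset.sum_add_distrib]
    apply Finset.sum_congr rfl
    intro m _
    rw [mul_add, mul_smul_comm]

theorem dot_rhs (a b c d m : ℕ) (w : List (MvPolynomial ℕ ℤ)) :
    ∀ ts : List (ℕ × ℕ × ℕ × ℕ), dot (rhs a b c d m ts) w =
      (ts.map (fun t => if st4 t.1 t.2.1 t.2.2.1 t.2.2.2 = true ∧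
          t.1 + t.2.1 + t.2.2.1 + t.2.2.2 + m = a + b + c + d then
        (mult a b c d t) • dot (C (a - t.1) (b - t.2.1) (c - t.2.2.1) (d - t.2.2.2)) w
        else 0)).sum
  | [] => by simp [rhs, dot_nil_left]
  | t :: ts => by
    rw [List.map_cons, List.sum_cons, ← dot_rhs a b c d m w ts]
    simp only [rhs]
    by_cases h : st4 t.1 t.2.1 t.2.2.1 t.2.2.2 = true ∧
          t.1 + t.2.1 + t.2.2.1 + t.2.2.2 + m = a + b + c + d
    · have h' : (st4 t.1 t.2.1 t.2.2.1 t.2.2.2 &&
        Nat.beq (t.1 + t.2.1 + t.2.2.1 + t.2.2.2 + m) (a + b + c + d)) = true := by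
        rw [Bool.and_eq_true]
        exact ⟨h.1, by rw [Nat.beq_eq]; exact h.2⟩
      rw [if_pos h', if_pos h, dot_addv, dot_smulv]
      simp
    · have h' : ¬ (st4 t.1 t.2.1 t.2.2.1 t.2.2.2 &&
        Nat.beq (t.1 + t.2.1 + t.2.2.1 + t.2.2.2 + m) (a + b + c + d)) = true := by
        rw [Bool.and_eq_true]
        intro hh
        exact h ⟨hh.1, Nat.eq_of_beq_eq_true hh.2⟩
      rw [if_neg h', if_neg h, zero_add]

theorem sum_range_list (n : ℕ) (f : ℕ → MvPolynomial ℕ ℤ) :
    ((List.range n).map f).sum = ∑ i ∈ Finset.range n, f i := by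
  induction n with
  | zero => simp
  | succ n ih =>
    rw [List.range_succ, List.map_append, List.sum_append, ih, Finset.sum_range_succ]
    simp

theorem sum_flatMap_list {α β : Type} (f : α → List β) (g : β → MvPolynomial ℕ ℤ) (l : List α) :
    ((l.flatMap f).map g).sum = (l.map (fun a => ((f a).map g).sum)).sum := by
  induction l with
  | nil => simp
  | cons a l ih =>
    rw [List.flatMap_cons, List.map_append, List.sum_append, ih]
    simp

theorem box_sum (a b c d : ℕ) (g : ℕ → ℕ → ℕ → ℕ → MvPolynomial ℕ ℤ) :
    ((box a b c d).map (fun t => (mult a b c d t) • g t.1 t.2.1 t.2.2.1 t.2.2.2)).sum =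
      Bn a fun i => Bn b fun y => Bn c fun x => Bn d fun w => g i y x w := by
  unfold box
  simp only [sum_flatMap_list, List.map_map, sum_range_list, mult, Function.comp_def]
  unfold Bn
  apply Finset.sum_congr rfl
  intro i _
  rw [Finset.smul_sum]
  apply Finset.sum_congr rfl
  intro y _
  rw [Finset.smul_sum, Finset.smul_sum]
  apply Finset.sum_congr rfl
  intro x _
  rw [Finset.smul_sum, Finset.smul_sum, Finset.smul_sum]
  apply Finset.sum_congr rfl
  intro w _
  rw [mul_smul, mul_smul, mul_smul]

theorem mem_box {a b c d : ℕ} {t : ℕ × ℕ × ℕ × ℕ} (h : t ∈ box a b c d) :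
    t.1 ≤ a ∧ t.2.1 ≤ b ∧ t.2.2.1 ≤ c ∧ t.2.2.2 ≤ d := by
  unfold box at h
  simp only [List.mem_flatMap, List.mem_map, List.mem_range] at h
  obtain ⟨i, hi, y, hy, x, hx, w, hw, rfl⟩ := h
  simp only
  omega

theorem finset_sum_list_sum {α : Type} (s : Finset ℕ) (ts : List α)
    (f : ℕ → α → MvPolynomial ℕ ℤ) :
    ∑ m ∈ s, (ts.map (f m)).sum = (ts.map (fun t => ∑ m ∈ s, f m t)).sum := by
  induction ts with
  | nil => simp
  | cons t ts ih =>
    simp only [List.map_cons, List.sum_cons]
    rw [Finset.sum_add_distrib, ih]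

theorem st4_iff (i y x w : ℕ) : st4 i y x w = true ↔
    (i = 0 ∨ y = 0) ∧ (y = 0 ∨ x = 0) ∧ (x = 0 ∨ w = 0) := by
  unfold st4
  simp only [Bool.and_eq_true, Bool.or_eq_true, Nat.beq_eq]

/-- The branching identity for the Schur coefficient tables. -/
theorem branch_C (k a b c d : ℕ) (ha : a < 5) (hb : b < 3) (hc : c < 3) (hd : d < 6) :
    dot (C a b c d) (pv (k + 1) (a + b + c + d)) =
      Bn a fun i => Bn b fun y => Bn c fun x => Bn d fun w =>
        if st4 i y x w = true then
          (MvPolynomial.X k : MvPolynomial ℕ ℤ) ^ (i + y + x + w) *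
            dot (C (a - i) (b - y) (c - x) (d - w))
              (pv k ((a - i) + (b - y) + (c - x) + (d - w)))
        else 0 := by
  have h1 : pv (k + 1) (a + b + c + d) = (L (a + b + c + d)).map
      (fun l => ∑ m ∈ Finset.range (a + b + c + d + 1),
        (MvPolynomial.X k : MvPolynomial ℕ ℤ) ^ (a + b + c + d - m) *
        ((L m).map (fun q => if hs l q = true then P k (dg q) else 0)).sum) := by
    unfold pv
    apply List.map_congr_left
    intro l hl
    exact P_list k _ l hl
  rw [h1, dot_sum_right (Finset.range (a + b + c + d + 1))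
    (fun m => (MvPolynomial.X k : MvPolynomial ℕ ℤ) ^ (a + b + c + d - m))
    (fun m l => ((L m).map (fun q => if hs l q = true then P k (dg q) else 0)).sum)]
  have h2 : ∀ m ∈ Finset.range (a + b + c + d + 1),
      (MvPolynomial.X k : MvPolynomial ℕ ℤ) ^ (a + b + c + d - m) *
        dot (C a b c d) ((L (a + b + c + d)).map
          (fun l => ((L m).map (fun q => if hs l q = true then P k (dg q) else 0)).sum)) =
      ((box a b c d).map (fun t => if st4 t.1 t.2.1 t.2.2.1 t.2.2.2 = true ∧
          t.1 + t.2.1 + t.2.2.1 + t.2.2.2 + m = a + b + c + d then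
        (mult a b c d t) • ((MvPolynomial.X k : MvPolynomial ℕ ℤ) ^ (a + b + c + d - m) *
          dot (C (a - t.1) (b - t.2.1) (c - t.2.2.1) (d - t.2.2.2)) (pv k m))
        else 0)).sum := by
    intro m hm
    rw [Finset.mem_range] at hm
    have hM : M (a + b + c + d) m = (L (a + b + c + d)).map (fun l => maskOf l (L m)) := by
      have := chkM_all (a + b + c + d) (by omega) m (by omega)
      unfold chkM at this
      exact (of_decide_eq_true this).symm
    have hv := dot_vm (L m) (fun q => P k (dg q)) (C a b c d) (L (a + b + c + d))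
    rw [← hM] at hv
    rw [← hv]
    have hchk := chk_all a ha b hb c hc d hd
    unfold chk at hchk
    rw [List.all_eq_true] at hchk
    have h3 := hchk m (List.mem_range.2 hm)
    have h4 := dot_allz _ (pv k m) h3
    rw [dot_addv, dot_smulv, neg_one_smul, add_neg_eq_zero] at h4
    change _ * dot (vm (L m).length (C a b c d) (M (a + b + c + d) m)) (pv k m) = _
    rw [h4, dot_rhs, ← List.sum_map_mul_left]
    congr 1
    apply List.map_congr_left
    intro t _
    split_ifs
    · rw [mul_smul_comm]
    · rw [mul_zero]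
  rw [Finset.sum_congr rfl h2, finset_sum_list_sum]
  rw [← box_sum a b c d (fun i y x w => if st4 i y x w = true then
          (MvPolynomial.X k : MvPolynomial ℕ ℤ) ^ (i + y + x + w) *
            dot (C (a - i) (b - y) (c - x) (d - w))
              (pv k ((a - i) + (b - y) + (c - x) + (d - w)))
        else 0)]
  congr 1
  apply List.map_congr_left
  intro t ht
  obtain ⟨h5, h6, h7, h8⟩ := mem_box ht
  rw [Finset.sum_eq_single (a + b + c + d - (t.1 + t.2.1 + t.2.2.1 + t.2.2.2))]
  · by_cases hst : st4 t.1 t.2.1 t.2.2.1 t.2.2.2 = true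
    · rw [if_pos ⟨hst, by omega⟩, if_pos hst]
      have e1 : a + b + c + d - (a + b + c + d - (t.1 + t.2.1 + t.2.2.1 + t.2.2.2)) =
        t.1 + t.2.1 + t.2.2.1 + t.2.2.2 := by omega
      have e2 : a + b + c + d - (t.1 + t.2.1 + t.2.2.1 + t.2.2.2) =
        (a - t.1) + (b - t.2.1) + (c - t.2.2.1) + (d - t.2.2.2) := by omega
      rw [e1, e2]
    · rw [if_neg (fun h => hst h.1), if_neg hst, smul_zero]
  · intro m _ hm
    rw [if_neg]
    rintro ⟨-, h⟩
    omega
  · intro hm
    rw [Finset.mem_range] at hm
    omega

theorem main (k : ℕ) : ∀ (V : Type) [Fintype V] (cl : V → Fin 4) (a b c d : ℕ),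
    a < 5 → b < 3 → c < 3 → d < 6 →
    cn cl Finset.univ 0 = a → cn cl Finset.univ 1 = b → cn cl Finset.univ 2 = c →
    cn cl Finset.univ 3 = d →
    XP k V cl = dot (C a b c d) (pv k (a + b + c + d)) := by
  classical
  induction k with
  | zero =>
    intro V _ cl a b c d ha hb hc hd ea eb ec ed
    have hcard : Fintype.card V = a + b + c + d := by
      rw [← Finset.card_univ, card_eq_cn cl, ea, eb, ec, ed]
    by_cases h0 : a + b + c + d = 0
    · have a0 : a = 0 := by omega
      have b0 : b = 0 := by omega
      have c0 : c = 0 := by omega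
      have d0 : d = 0 := by omega
      rw [a0, b0, c0, d0]
      have hV : IsEmpty V := Fintype.card_eq_zero_iff.1 (by rw [hcard, h0])
      have h1 : C 0 0 0 0 = [1] := by decide +kernel
      have h2 : L 0 = [[]] := by decide +kernel
      have h3 : P 0 (dg []) = 1 := by
        have := P_zero_list 0 [] (by rw [h2]; simp)
        simpa using this
      have h4 : pv 0 (0 + 0 + 0 + 0) = [1] := by
        show (L 0).map (fun l => P 0 (dg l)) = [1]
        rw [h2]
        simp [h3]
      rw [h1, h4]
      unfold XP
      rw [Fintype.sum_unique]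
      have hP : Proper cl (default : V → Fin 0) := fun u => hV.elim u
      rw [if_pos hP]
      simp [dot]
    · have hne : Nonempty V := by
        rw [← Fintype.card_pos_iff, hcard]
        omega
      obtain ⟨v⟩ := hne
      have hz : ∀ (u : List ℤ) (Q : List (List ℕ)), (∀ q ∈ Q, q ∈ L (a + b + c + d)) →
          dot u (Q.map (fun l => P 0 (dg l))) = 0 := by
        intro u Q
        induction Q generalizing u with
        | nil => intro _; exact dot_nil_right _
        | cons q Q ih =>
          intro hq
          cases u with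
          | nil => exact dot_nil_left _
          | cons x u =>
            simp only [List.map_cons, dot]
            rw [P_zero_list (a + b + c + d) q (hq q (by simp)), if_neg h0, smul_zero, zero_add]
            exact ih u (fun p hp => hq p (by simp [hp]))
      rw [show dot (C a b c d) (pv 0 (a + b + c + d)) = 0 from hz _ _ (fun q hq => hq)]
      unfold XP
      apply Finset.sum_eq_zero
      intro κ _
      exact (κ v).elim0
  | succ k ih =>
    intro V _ cl a b c d ha hb hc hd ea eb ec ed
    rw [XP_succ, branch_C k a b c d ha hb hc hd]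
    have h1 : ∀ S : Finset V, (if Stab cl S then
        (MvPolynomial.X k : MvPolynomial ℕ ℤ) ^ S.card *
          XP k {v : V // v ∉ S} (fun v => cl v.1) else 0) =
        (fun i y x w => if st4 i y x w = true then
          (MvPolynomial.X k : MvPolynomial ℕ ℤ) ^ (i + y + x + w) *
            dot (C (a - i) (b - y) (c - x) (d - w))
              (pv k ((a - i) + (b - y) + (c - x) + (d - w)))
        else 0) (cn cl S 0) (cn cl S 1) (cn cl S 2) (cn cl S 3) := by
      intro S
      simp only
      by_cases hS : Stab cl S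
      · rw [if_pos hS, if_pos ((st4_iff _ _ _ _).2 ((stab_iff cl S).1 hS)), ← card_eq_cn cl S]
        congr 1
        apply ih {v : V // v ∉ S} (fun v => cl v.1)
        · omega
        · omega
        · omega
        · omega
        · rw [cn_compl, ea]
        · rw [cn_compl, eb]
        · rw [cn_compl, ec]
        · rw [cn_compl, ed]
      · rw [if_neg hS, if_neg (fun h => hS ((stab_iff cl S).2 ((st4_iff _ _ _ _).1 h)))]
    rw [Finset.sum_congr rfl (fun S _ => h1 S)]
    have h2 := group cl (Finset.univ : Finset V) (fun i y x w => if st4 i y x w = true then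
          (MvPolynomial.X k : MvPolynomial ℕ ℤ) ^ (i + y + x + w) *
            dot (C (a - i) (b - y) (c - x) (d - w))
              (pv k ((a - i) + (b - y) + (c - x) + (d - w)))
        else 0)
    rw [Finset.powerset_univ, ea, eb, ec, ed] at h2
    exact h2

end Pool.Agent.Helper370_SNP
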